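import Pool.Agent.H23.GU.SNT
import Pool.Agent.H84.GU.RHO
import Pool.Agent.H67.GU.BLK
import Pool.Agent.H13.GU.KAP
import Pool.Agent.H55.GV.OMG

/-!
Row SNW of the board gu: the weights on the shell, from the rows BLK, KAP, OMG and RHO (helper25).
-/

set_option autoImplicit false

namespace Pool.Agent.H25.GU

open MeasureTheory Pool.Agent.H34.GM Pool.Agent.H34.GZ Pool.Agent.H34.GU Pool.Agent.H76.GU

theorem rho_all : T_RHO :=
  Pool.Agent.H84.GU.pf_RHO Pool.Agent.H67.GU.pf_BLK Pool.Agent.H13.GU.pf_KAP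
    Pool.Agent.H55.GV.pf_OMG

theorem inN_iff {m k : ℕ} (C : ZM m) : C ∈ BK m k ↔ InN k (1 + C) := by
  constructor
  · intro h i j hij
    have h0 : C i j = 0 := by
      by_contra hne
      exact hij (h i j hne)
    rw [Matrix.add_apply, h0, add_zero]
  · intro h i j hne
    by_contra hij
    have h1 := h i j hij
    rw [Matrix.add_apply] at h1
    exact hne (by omega)

/-- adding the identity -/
def eN (m k : ℕ) : BK m k ≃ {n : ZM m // InN k n} where
  toFun C := ⟨1 + C.1, (inN_iff C.1).1 C.2⟩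
  invFun n := ⟨n.1 - 1, (inN_iff (n.1 - 1)).2 (by rw [add_sub_cancel]; exact n.2)⟩
  left_inv C := Subtype.ext (add_sub_cancel_left _ _)
  right_inv n := Subtype.ext (add_sub_cancel _ _)

theorem vec_mem {m k : ℕ} {p : ZM m} (hp : ∀ i j : Fin m, (i : ℕ) < k → k ≤ (j : ℕ) → p i j = 0)
    {c : Fin m → ℤ} (hc : c ∈ VK m k) : Matrix.vecMul c p ∈ VK m k := by
  intro j hj
  rw [Matrix.vecMul, dotProduct]
  apply Finset.sum_eq_zero
  intro i _
  by_cases hi : (i : ℕ) < k
  · rw [hp i j hi hj, mul_zero]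
  · rw [hc i (not_lt.1 hi), zero_mul]

theorem inP_iff {m k : ℕ} (p : ZM m) : p ∈ PK m k ↔ InP k p := by
  constructor
  · rintro ⟨hu, h⟩
    refine ⟨hu, fun i j hi hj => ?_⟩
    have h1 : (Pi.single i (1 : ℤ) : Fin m → ℤ) ∈ VK m k := by
      intro l hl
      apply Pi.single_eq_of_ne
      rintro rfl
      omega
    have h2 := (h _).1 h1 j hj
    rw [Matrix.single_one_vecMul] at h2
    exact h2
  · rintro ⟨hu, h⟩
    refine ⟨hu, fun c => ⟨fun hc => vec_mem h hc, fun hc => ?_⟩⟩
    obtain ⟨w, hw⟩ := hu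
    have hr : p * ((w⁻¹ : (ZM m)ˣ) : ZM m) = 1 := by rw [← hw]; exact w.mul_inv
    have hI : Invertible p := by
      rw [← hw]
      exact w.invertible
    have hinv : ((w⁻¹ : (ZM m)ˣ) : ZM m) = p⁻¹ := by
      rw [Matrix.inv_eq_right_inv hr]
    have hb : Matrix.BlockTriangular p (fun i : Fin m => if (i : ℕ) < k then 1 else 0) := by
      intro i j hij
      by_cases hi : (i : ℕ) < k
      · by_cases hj : (j : ℕ) < k
        · simp [hi, hj] at hij
        · exact h i j hi (not_lt.1 hj)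
      · simp [hi] at hij
    have hb' := Matrix.blockTriangular_inv_of_blockTriangular hb
    have h' : ∀ i j : Fin m, (i : ℕ) < k → k ≤ (j : ℕ) → p⁻¹ i j = 0 := by
      intro i j hi hj
      apply hb'
      simp [hi, not_lt.2 hj]
    have h3 := vec_mem h' hc
    rw [← hinv, Matrix.vecMul_vecMul, hr, Matrix.vecMul_one] at h3
    exact h3

/-- the two descriptions of the block triangular units -/
def eP (m k : ℕ) : PK m k ≃ {p : ZM m // InP k p} :=
  Equiv.subtypeEquivRight fun p => inP_iff p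

theorem cR_add_one {m : ℕ} (C : ZM m) : cR (1 + C) = 1 + cR C := by
  ext i j
  simp only [cR, Matrix.map_apply, Matrix.add_apply, Matrix.one_apply, Int.cast_add]
  split_ifs <;> simp

theorem pf_SNW : T_SNW := by
  intro m k _ hk
  obtain ⟨κ, ν, κm, νm, κ1, ν1, νn, κs, hs⟩ := rho_all m k hk.le
  refine ⟨ν, κ, νm, κm, fun z => ⟨ν1 z, κ1 z⟩, fun z hz => ⟨fun u => νn z u hz, ?_, ?_⟩⟩
  · rw [← κs z hz, ← (eN m k).tsum_eq]
    apply tsum_congr
    intro C
    show κ (fun i j => ((1 + cR C.1) * mt z) i j) = κ (lm (cR (1 + C.1)) z)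
    rw [cR_add_one]
    rfl
  · rw [← hs z hz, ← (eP m k).tsum_eq]
    apply tsum_congr
    intro p
    rw [mul_comm]
    rfl

end Pool.Agent.H25.GU
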